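import Mathlib

set_option autoImplicit false

/-!
# Martin's axiom for sigma-centered partial orders and `ℵ₁` dense sets
-/

namespace Pool.Agent.H733.GB

/-- `P` is `σ`-centered: `P` is the union of countably many pieces `{p | c p = n}`, and every
finite subset of a piece has a lower bound in `P`. -/
def SigmaCentered (P : Type) [PartialOrder P] : Prop :=
  ∃ c : P → ℕ, ∀ (n : ℕ) (s : Finset P), (∀ p ∈ s, c p = n) → ∃ q : P, ∀ p ∈ s, q ≤ p

/-- `D` is dense in the partial order `P` (smaller conditions are stronger). -/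
def IsDenseSub {P : Type} [PartialOrder P] (D : Set P) : Prop :=
  ∀ p : P, ∃ q ∈ D, q ≤ p

/-- `G` is a filter in the partial order `P`. -/
def IsFilt {P : Type} [PartialOrder P] (G : Set P) : Prop :=
  G.Nonempty ∧ (∀ p ∈ G, ∀ q : P, p ≤ q → q ∈ G) ∧
    ∀ p ∈ G, ∀ q ∈ G, ∃ r ∈ G, r ≤ p ∧ r ≤ q

/-- Martin's axiom for `σ`-centered partial orders and `ℵ₁` dense sets
(`MA_{ℵ₁}(σ-centered)`, equivalent to `𝔭 > ℵ₁`). -/
def MASigmaCentered : Prop :=
  ∀ (P : Type) [PartialOrder P] [Nonempty P], SigmaCentered P →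
    ∀ (ι : Type) (D : ι → Set P), Cardinal.mk ι ≤ Cardinal.aleph 1 → (∀ i, IsDenseSub (D i)) →
      ∃ G : Set P, IsFilt G ∧ ∀ i, (G ∩ D i).Nonempty

end Pool.Agent.H733.GB
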