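import Mathlib
import Pool.Agent.H733.GB.Defs

set_option autoImplicit false

namespace Pool.Agent.H733.GB

open Set Cardinal
open scoped Nat

section

variable {I B : Type} (S : B → Set I)

/-- Conditions: a finite sequence of indices and a finite set of points to be avoided in
the future. -/
@[ext] structure CondS {I B : Type} (S : B → Set I) where
  seq : List B
  avoid : Finset I

variable {S}

instance : PartialOrder (CondS S) where
  le p q := ∃ t : List B, p.seq = q.seq ++ t ∧ q.avoid ⊆ p.avoid ∧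
    ∀ b ∈ t, ∀ i ∈ q.avoid, i ∉ S b
  le_refl p := ⟨[], by simp, subset_rfl, by simp⟩
  le_trans := by
    rintro p q r ⟨t, h1, h2, h3⟩ ⟨u, g1, g2, g3⟩
    refine ⟨u ++ t, ?_, g2.trans h2, ?_⟩
    · rw [h1, g1, List.append_assoc]
    · intro b hb i hi
      rcases List.mem_append.1 hb with h | h
      · exact g3 b h i hi
      · exact h3 b h i (g2 hi)
  le_antisymm := by
    rintro p q ⟨t, h1, h2, _⟩ ⟨u, g1, g2, _⟩
    have ht : t = [] := by
      have e1 := congrArg List.length h1
      have e2 := congrArg List.length g1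
      simp only [List.length_append] at e1 e2
      exact List.eq_nil_of_length_eq_zero (by omega)
    subst ht
    refine CondS.ext ?_ (Finset.Subset.antisymm g2 h2)
    simpa using h1

theorem le_def (p q : CondS S) : p ≤ q ↔ ∃ t : List B, p.seq = q.seq ++ t ∧ q.avoid ⊆ p.avoid ∧
    ∀ b ∈ t, ∀ i ∈ q.avoid, i ∉ S b := Iff.rfl

instance : Nonempty (CondS S) := ⟨(⟨[], ∅⟩ : CondS S)⟩

theorem sigmaCentered [Countable B] : SigmaCentered (CondS S) := by
  classical
  obtain ⟨e, he⟩ := exists_injective_nat (List B)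
  refine ⟨fun p => e p.seq, fun n s hs => ?_⟩
  by_cases hne : s.Nonempty
  · obtain ⟨p₀, hp₀⟩ := hne
    refine ⟨(⟨p₀.seq, s.sup (fun p => p.avoid)⟩ : CondS S), fun p hp => ?_⟩
    have hseq : p.seq = p₀.seq := he ((hs p hp).trans (hs p₀ hp₀).symm)
    refine ⟨[], ?_, ?_, by simp⟩
    · simp [hseq]
    · exact Finset.le_sup (f := fun p : CondS S => p.avoid) hp
  · rw [Finset.not_nonempty_iff_eq_empty] at hne
    subst hne
    exact ⟨(⟨[], ∅⟩ : CondS S), by simp⟩

end

/-- The partial sums `∑_{j < n} j! m (b j)`. -/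
noncomputable def psum {B : Type} (m : B → ℤ) (b : ℕ → B) (n : ℕ) : ℤ :=
  ∑ j ∈ Finset.range n, (j ! : ℤ) * m (b j)

/-- partial sums for a list, `e` is a dummy value -/
noncomputable def lsum {B : Type} (m : B → ℤ) (l : List B) (e : B) (n : ℕ) : ℤ :=
  psum m (fun j => l.getD j e) n

/-- Divisibility by all the factorials forces zero. -/
theorem eq_zero_of_factorial_dvd (x : ℤ) (k : ℕ) (h : ∀ n, k ≤ n → (n ! : ℤ) ∣ x) : x = 0 := by
  by_contra hx
  have h1 := h (max k (x.natAbs + 1)) (le_max_left _ _)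
  have h2 := Int.natAbs_dvd_natAbs.2 h1
  rw [Int.natAbs_natCast] at h2
  have h3 := Nat.le_of_dvd (Int.natAbs_pos.2 hx) h2
  have h4 : x.natAbs + 1 ≤ max k (x.natAbs + 1) := le_max_right _ _
  have h5 := Nat.self_le_factorial (max k (x.natAbs + 1))
  omega

theorem psum_congr {B : Type} (m : B → ℤ) (b c : ℕ → B) (n : ℕ) (h : ∀ j < n, b j = c j) :
    psum m b n = psum m c n := by
  unfold psum
  refine Finset.sum_congr rfl fun j hj => ?_
  rw [h j (Finset.mem_range.1 hj)]

/-- The density argument. -/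
theorem dense_aux {I B : Type} (S : B → Set I) (m : B → ℤ) (e : B) (hSe : S e = ∅)
    (hm0 : m e = 0) (hm : ∀ F : Finset I, ∃ b, (∀ i ∈ F, i ∉ S b) ∧ m b ≠ 0) (t : ℤ) :
    IsDenseSub {p : CondS S | ∃ n ≤ p.seq.length, ¬ ((n ! : ℤ) ∣ t - lsum m p.seq e n)} := by
  classical
  intro p
  -- a first extension with `t ≠` the partial sum
  have step1 : ∃ q : CondS S, q ≤ p ∧ t ≠ lsum m q.seq e q.seq.length := by
    by_cases ht : t = lsum m p.seq e p.seq.length
    · obtain ⟨b, hb, hmb⟩ := hm p.avoid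
      refine ⟨(⟨p.seq ++ [b], p.avoid⟩ : CondS S), ⟨[b], rfl, subset_rfl, ?_⟩, ?_⟩
      · intro b' hb' i hi
        rw [List.mem_singleton] at hb'
        subst hb'
        exact hb i hi
      · have h1 : lsum m (p.seq ++ [b]) e (p.seq ++ [b]).length
            = lsum m p.seq e p.seq.length + (p.seq.length ! : ℤ) * m b := by
          unfold lsum psum
          rw [List.length_append, List.length_singleton, Finset.sum_range_succ]
          congr 1
          · refine Finset.sum_congr rfl fun j hj => ?_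
            dsimp only
            rw [List.getD_append _ _ _ _ (Finset.mem_range.1 hj)]
          · dsimp only
            rw [List.getD_append_right _ _ _ _ le_rfl]
            simp
        show t ≠ lsum m (p.seq ++ [b]) e (p.seq ++ [b]).length
        rw [h1, ← ht]
        intro h2
        have h3 : (p.seq.length ! : ℤ) * m b = 0 := by linarith
        rcases mul_eq_zero.1 h3 with h4 | h4
        · exact (Nat.factorial_ne_zero _) (by exact_mod_cast h4)
        · exact hmb h4
    · exact ⟨p, le_refl p, ht⟩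
  obtain ⟨q, hqp, hq⟩ := step1
  -- choose `n ≥ length` with `n!` not dividing the difference
  have step2 : ∃ n, q.seq.length ≤ n ∧ ¬ ((n ! : ℤ) ∣ t - lsum m q.seq e q.seq.length) := by
    by_contra hcon
    push Not at hcon
    exact hq (sub_eq_zero.1 (eq_zero_of_factorial_dvd _ _ hcon))
  obtain ⟨n, hn, hnd⟩ := step2
  have hlen : (q.seq ++ List.replicate (n - q.seq.length) e).length = n := by
    simp only [List.length_append, List.length_replicate]
    omega
  refine ⟨(⟨q.seq ++ List.replicate (n - q.seq.length) e, q.avoid⟩ : CondS S), ?_, ?_⟩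
  · refine ⟨n, le_of_eq hlen.symm, ?_⟩
    have h1 : lsum m (q.seq ++ List.replicate (n - q.seq.length) e) e n
        = lsum m q.seq e q.seq.length := by
      unfold lsum psum
      obtain ⟨k, rfl⟩ := Nat.exists_eq_add_of_le hn
      rw [Finset.sum_range_add]
      have h2 : ∑ x ∈ Finset.range k, ((q.seq.length + x) ! : ℤ) *
          m ((q.seq ++ List.replicate (q.seq.length + k - q.seq.length) e).getD
            (q.seq.length + x) e) = 0 := by
        refine Finset.sum_eq_zero fun x hx => ?_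
        have h3 : (q.seq ++ List.replicate (q.seq.length + k - q.seq.length) e).getD
            (q.seq.length + x) e = e := by
          rw [List.getD_append_right _ _ _ _ (by omega)]
          rw [List.getD_eq_getElem?_getD, List.getElem?_replicate]
          split <;> simp
        rw [h3, hm0, mul_zero]
      rw [h2, add_zero]
      refine Finset.sum_congr rfl fun j hj => ?_
      dsimp only
      rw [List.getD_append _ _ _ _ (Finset.mem_range.1 hj)]
    show ¬ ((n ! : ℤ) ∣ t - lsum m (q.seq ++ List.replicate (n - q.seq.length) e) e n)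
    rw [h1]
    exact hnd
  · refine le_trans (b := q) ⟨List.replicate (n - q.seq.length) e, rfl, subset_rfl, ?_⟩ hqp
    intro b hb i _
    rw [List.eq_of_mem_replicate hb, hSe]
    simp

/-- The consequence of Martin's axiom which is used. -/
theorem exists_seq (MA : MASigmaCentered) {I B ζ : Type} [Countable B]
    (hI : #I ≤ ℵ₁) (hζ : #ζ ≤ ℵ₁) (S : B → Set I) (m : ζ → B → ℤ) (e : B) (hSe : S e = ∅)
    (hm0 : ∀ a, m a e = 0)
    (hm : ∀ a, ∀ F : Finset I, ∃ b, (∀ i ∈ F, i ∉ S b) ∧ m a b ≠ 0) :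
    ∃ b : ℕ → B, (∀ i, {n | i ∈ S (b n)}.Finite) ∧
      ∀ a, ∀ t : ℤ, ∃ n, ¬ ((n ! : ℤ) ∣ t - psum (m a) b n) := by
  classical
  let D : ℕ ⊕ I ⊕ (ζ × ℤ) → Set (CondS S)
    | Sum.inl n => {p | n < p.seq.length}
    | Sum.inr (Sum.inl i) => {p | i ∈ p.avoid}
    | Sum.inr (Sum.inr at') => {p | ∃ n ≤ p.seq.length,
        ¬ ((n ! : ℤ) ∣ at'.2 - lsum (m at'.1) p.seq e n)}
  have hcard : #(ℕ ⊕ I ⊕ (ζ × ℤ)) ≤ ℵ₁ := by
    have h0 : ℵ₀ ≤ ℵ₁ := aleph0_le_aleph 1
    simp only [mk_sum, mk_prod, lift_id, mk_int, mk_nat]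
    refine add_le_of_le h0 h0 (add_le_of_le h0 hI ?_)
    calc #ζ * ℵ₀ ≤ ℵ₁ * ℵ₁ := mul_le_mul' hζ h0
      _ = ℵ₁ := mul_eq_self h0
  have hD : ∀ x, IsDenseSub (D x) := by
    rintro (n | i | ⟨a, t⟩)
    · intro p
      refine ⟨(⟨p.seq ++ List.replicate (n + 1) e, p.avoid⟩ : CondS S), ?_,
        ⟨List.replicate (n + 1) e, rfl, subset_rfl, ?_⟩⟩
      · show n < (p.seq ++ List.replicate (n + 1) e).length
        simp only [List.length_append, List.length_replicate]
        omega
      · intro b hb i _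
        rw [List.eq_of_mem_replicate hb, hSe]
        simp
    · intro p
      refine ⟨(⟨p.seq, insert i p.avoid⟩ : CondS S), ?_,
        ⟨[], by simp, Finset.subset_insert _ _, by simp⟩⟩
      show i ∈ insert i p.avoid
      simp
    · exact dense_aux S (m a) e hSe (hm0 a) (hm a) t
  obtain ⟨G, ⟨_, _, hdir⟩, hG⟩ := MA (CondS S) sigmaCentered _ D hcard hD
  have h1 : ∀ n, ∃ p ∈ G, n < p.seq.length := fun n => by
    obtain ⟨p, hp, hpD⟩ := hG (Sum.inl n)
    exact ⟨p, hp, hpD⟩
  choose p hpG hpn using h1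
  have key : ∀ q ∈ G, ∀ j, j < q.seq.length → (p j).seq.getD j e = q.seq.getD j e := by
    intro q hq j hj
    obtain ⟨r, _, ⟨t1, ht1, -, -⟩, ⟨t2, ht2, -, -⟩⟩ := hdir _ (hpG j) _ hq
    have e1 : r.seq.getD j e = (p j).seq.getD j e := by
      rw [ht1, List.getD_append _ _ _ _ (hpn j)]
    have e2 : r.seq.getD j e = q.seq.getD j e := by
      rw [ht2, List.getD_append _ _ _ _ hj]
    rw [← e1, e2]
  refine ⟨fun n => (p n).seq.getD n e, fun i => ?_, fun a t => ?_⟩
  · obtain ⟨q, hq, hqi⟩ := hG (Sum.inr (Sum.inl i))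
    refine (Set.finite_lt_nat q.seq.length).subset fun n hn => ?_
    by_contra hlt
    have hlt' : q.seq.length ≤ n := not_lt.1 hlt
    obtain ⟨r, _, ⟨t1, ht1, -, -⟩, ⟨t2, ht2, -, hav⟩⟩ := hdir _ (hpG n) _ hq
    have e1 : r.seq.getD n e = (p n).seq.getD n e := by
      rw [ht1, List.getD_append _ _ _ _ (hpn n)]
    have hlenr : n < r.seq.length := by
      rw [ht1, List.length_append]
      have := hpn n
      omega
    have hmem : r.seq.getD n e ∈ t2 := by
      rw [ht2, List.getD_append_right _ _ _ _ hlt']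
      have h3 : n - q.seq.length < t2.length := by
        rw [ht2, List.length_append] at hlenr
        omega
      rw [List.getD_eq_getElem _ _ h3]
      exact List.getElem_mem h3
    exact hav _ hmem i hqi (e1 ▸ hn)
  · obtain ⟨q, hq, n, hn, hnd⟩ := hG (Sum.inr (Sum.inr (a, t)))
    refine ⟨n, ?_⟩
    have h2 : psum (m a) (fun n => (p n).seq.getD n e) n = lsum (m a) q.seq e n := by
      unfold lsum
      refine psum_congr _ _ _ _ fun j hj => ?_
      exact key q hq j (lt_of_lt_of_le hj hn)
    rw [h2]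
    exact hnd

end Pool.Agent.H733.GB
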