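import Mathlib
import Pool.Agent.H733.GB.Seq

set_option autoImplicit false

/-!
# The group `ℤ ^ I` modulo the functions with countable support
-/

namespace Pool.Agent.H733.GB

open Set Cardinal
open scoped Nat

/-- The functions with countable support. -/
abbrev CS (I : Type) : AddSubgroup (I → ℤ) :=
  AddSubgroup.closure {f : I → ℤ | (Function.support f).Countable}

/-- The quotient group. -/
abbrev Q (I : Type) : Type := (I → ℤ) ⧸ CS I

/-- `T` is induced by the row-finite integer matrix `c`. -/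
def Induced {I : Type} (T : (I → ℤ) →+ Q I) : Prop :=
  ∃ c : I → (I →₀ ℤ), ∀ f : I → ℤ,
    T f = QuotientAddGroup.mk (fun a => (c a).sum fun i x => x * f i)

theorem mem_CS {I : Type} (f : I → ℤ) : f ∈ CS I ↔ (Function.support f).Countable := by
  refine ⟨fun h => ?_, fun h => AddSubgroup.subset_closure h⟩
  induction h using AddSubgroup.closure_induction with
  | mem x hx => exact hx
  | zero => simp
  | add x y _ _ hx hy => exact (hx.union hy).mono (Function.support_add x y)
  | neg x _ hx => simpa using hx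

theorem mk_eq_iff {I : Type} (f g : I → ℤ) :
    (QuotientAddGroup.mk f : Q I) = QuotientAddGroup.mk g ↔ {i | f i ≠ g i}.Countable := by
  rw [QuotientAddGroup.eq, mem_CS]
  have : Function.support (-f + g) = {i | f i ≠ g i} := by
    ext i
    simp only [Function.mem_support, Pi.add_apply, Pi.neg_apply, mem_setOf_eq, ne_eq]
    constructor
    · intro h h1
      exact h (by rw [h1]; ring)
    · intro h h1
      exact h (by linarith)
  rw [this]

/-- `u n = ∑_{j < n} j!`. -/
def uu (n : ℕ) : ℤ := ∑ j ∈ Finset.range n, (j ! : ℤ)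

theorem uu_succ (n : ℕ) : uu (n + 1) = uu n + (n ! : ℤ) := Finset.sum_range_succ _ _

theorem uu_nonneg (n : ℕ) : 0 ≤ uu n := Finset.sum_nonneg fun j _ => by positivity

theorem uu_le (n : ℕ) : uu (n + 1) ≤ 2 * (n ! : ℤ) := by
  induction n with
  | zero => simp [uu]
  | succ n ih =>
    rw [uu_succ]
    rcases Nat.eq_zero_or_pos n with rfl | hn
    · simp [uu]
    · have h1 : ((n + 1) ! : ℤ) = ((n : ℤ) + 1) * (n ! : ℤ) := by
        rw [Nat.factorial_succ]; push_cast; ring
      have h2 : (1 : ℤ) ≤ n := by exact_mod_cast hn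
      have h3 : (0 : ℤ) < (n ! : ℤ) := by exact_mod_cast Nat.factorial_pos n
      nlinarith

theorem dvd_uu_sub (N k : ℕ) (h : N ≤ k) : (N ! : ℤ) ∣ uu k - uu N := by
  induction k, h using Nat.le_induction with
  | base => simp
  | succ k hk ih =>
    rw [uu_succ]
    have h1 : uu k + (k ! : ℤ) - uu N = (uu k - uu N) + (k ! : ℤ) := by ring
    rw [h1]
    exact dvd_add ih (by exact_mod_cast Nat.factorial_dvd_factorial hk)

/-- `∑ j!` is not rational in `ℤ^`. -/
theorem eq_zero_of_uu (y z : ℤ) (h : ∀ N, (N ! : ℤ) ∣ z - uu N * y) : y = 0 := by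
  have key : ∀ N : ℕ, z.natAbs + 2 * y.natAbs ≤ N → z = uu (N + 1) * y := by
    intro N hN
    have h1 := h (N + 1)
    have h2 : |z - uu (N + 1) * y| < ((N + 1) ! : ℤ) := by
      have a1 : |z - uu (N + 1) * y| ≤ |z| + uu (N + 1) * |y| := by
        calc |z - uu (N + 1) * y| ≤ |z| + |uu (N + 1) * y| := abs_sub _ _
          _ = |z| + uu (N + 1) * |y| := by rw [abs_mul, abs_of_nonneg (uu_nonneg _)]
      have a2 := uu_le N
      have a3 : (0 : ℤ) < (N ! : ℤ) := by exact_mod_cast Nat.factorial_pos N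
      have a4 : ((N + 1) ! : ℤ) = ((N : ℤ) + 1) * (N ! : ℤ) := by
        rw [Nat.factorial_succ]; push_cast; ring
      have a5 : |z| + 2 * |y| ≤ (N : ℤ) := by
        have : ((z.natAbs + 2 * y.natAbs : ℕ) : ℤ) ≤ (N : ℤ) := by exact_mod_cast hN
        push_cast at this
        exact this
      have a6 : 0 ≤ |y| := abs_nonneg y
      have a7 : 0 ≤ |z| := abs_nonneg z
      rw [a4]
      have a8 : uu (N + 1) * |y| ≤ 2 * (N ! : ℤ) * |y| := mul_le_mul_of_nonneg_right a2 a6
      have a9 : |z| ≤ |z| * (N ! : ℤ) := by nlinarith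
      nlinarith
    have h3 := Int.eq_zero_of_abs_lt_dvd h1 h2
    linarith
  have h1 := key _ le_rfl
  have h2 := key _ (Nat.le_succ _)
  rw [uu_succ (z.natAbs + 2 * y.natAbs + 1)] at h2
  have h3 : (((z.natAbs + 2 * y.natAbs + 1) ! : ℕ) : ℤ) * y = 0 := by
    rw [add_mul] at h2
    linarith
  rcases mul_eq_zero.1 h3 with h4 | h4
  · exact absurd (by exact_mod_cast h4) (Nat.factorial_ne_zero (z.natAbs + 2 * y.natAbs + 1))
  · exact h4

/-- A homomorphism from `ℤ ^ ℤ` to the quotient which kills the unit vectors is zero. -/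
theorem hom_eq_zero {I : Type} (ψ : (ℤ → ℤ) →+ Q I) (h : ∀ k : ℤ, ψ (Pi.single k 1) = 0)
    (a : ℤ → ℤ) : ψ a = 0 := by
  classical
  -- finitely supported functions
  have hfin : ∀ (s : Finset ℤ) (b : ℤ → ℤ), (∀ k, k ∉ s → b k = 0) → ψ b = 0 := by
    intro s b hb
    have h1 : b = ∑ k ∈ s, b k • (Pi.single k (1 : ℤ) : ℤ → ℤ) := by
      ext j
      rw [Finset.sum_apply]
      simp only [Pi.smul_apply, smul_eq_mul, Pi.single_apply, mul_ite, mul_one, mul_zero]
      rw [Finset.sum_ite_eq]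
      split_ifs with h2
      · rfl
      · exact hb j h2
    rw [h1, map_sum]
    refine Finset.sum_eq_zero fun k _ => ?_
    rw [map_zsmul, h k, smul_zero]
  let a' : ℤ → ℤ := fun k => uu k.natAbs * a k
  let b : ℕ → ℤ → ℤ := fun N k => if N ≤ k.natAbs then ((uu k.natAbs - uu N) / (N ! : ℤ)) * a k
    else 0
  have hdec : ∀ N, ψ a' = uu N • ψ a + (N ! : ℤ) • ψ (b N) := by
    intro N
    have h1 : ψ (a' - (uu N • a + (N ! : ℤ) • b N)) = 0 := by
      refine hfin (Finset.Icc (-(N : ℤ)) N) _ fun k hk => ?_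
      have hkN : N ≤ k.natAbs := by
        rw [Finset.mem_Icc] at hk
        omega
      simp only [a', b, Pi.sub_apply, Pi.add_apply, Pi.smul_apply, smul_eq_mul, if_pos hkN]
      have h2 := Int.mul_ediv_cancel' (dvd_uu_sub N k.natAbs hkN)
      have h3 : (N ! : ℤ) * ((uu k.natAbs - uu N) / (N ! : ℤ) * a k)
          = ((N ! : ℤ) * ((uu k.natAbs - uu N) / (N ! : ℤ))) * a k := by ring
      rw [h3, h2]
      ring
    rw [map_sub, map_add, map_zsmul, map_zsmul] at h1
    exact sub_eq_zero.1 h1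
  obtain ⟨z, hz⟩ := QuotientAddGroup.mk_surjective (ψ a')
  obtain ⟨y, hy⟩ := QuotientAddGroup.mk_surjective (ψ a)
  have hw : ∀ N, ∃ w : I → ℤ, (QuotientAddGroup.mk w : Q I) = ψ (b N) := fun N =>
    QuotientAddGroup.mk_surjective (ψ (b N))
  choose w hw using hw
  have hE : ∀ N, {i | z i ≠ (uu N • y + (N ! : ℤ) • w N) i}.Countable := by
    intro N
    rw [← mk_eq_iff, hz, hdec N, ← hy, ← hw N]
    rfl
  have hU := Set.countable_iUnion hE
  rw [← hy]
  have h0 : (0 : Q I) = QuotientAddGroup.mk (0 : I → ℤ) := rfl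
  rw [h0, mk_eq_iff]
  refine hU.mono fun i hi => ?_
  by_contra hcon
  rw [mem_iUnion] at hcon
  push Not at hcon
  refine hi (eq_zero_of_uu (y i) (z i) fun N => ?_)
  have h1 : z i = (uu N • y + (N ! : ℤ) • w N) i := by
    by_contra h2
    exact hcon N h2
  rw [h1]
  simp only [Pi.add_apply, Pi.smul_apply, smul_eq_mul]
  exact ⟨w N i, by ring⟩

end Pool.Agent.H733.GB
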