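import Mathlib
import Pool.Agent.H733.GB.Quot

set_option autoImplicit false

/-!
# Finitely additive measures on an algebra of sets and finitely supported functionals
-/

namespace Pool.Agent.H733.GB

open Set Cardinal MeasureTheory
open scoped Nat

/-- The indicator function of `A`. -/
noncomputable def ind {I : Type} (A : Set I) : I → ℤ := A.indicator 1

theorem ind_of_mem {I : Type} {A : Set I} {i : I} (h : i ∈ A) : ind A i = 1 := by
  simp [ind, h]

theorem ind_of_notMem {I : Type} {A : Set I} {i : I} (h : i ∉ A) : ind A i = 0 := by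
  simp [ind, h]

theorem ind_union {I : Type} {A B : Set I} (h : Disjoint A B) :
    ind (A ∪ B) = ind A + ind B := by
  unfold ind
  exact Set.indicator_union_of_disjoint h _

/-- The functional on `ℤ ^ I` given by a finitely supported row. -/
noncomputable def ev {I : Type} (c : I →₀ ℤ) : (I → ℤ) →+ ℤ where
  toFun f := c.sum fun i a => a * f i
  map_zero' := by simp [Finsupp.sum]
  map_add' f g := by
    simp only [Finsupp.sum, Pi.add_apply, mul_add, Finset.sum_add_distrib]

theorem ev_apply {I : Type} (c : I →₀ ℤ) (f : I → ℤ) : ev c f = c.sum fun i a => a * f i := rfl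

theorem ev_add {I : Type} (c d : I →₀ ℤ) (f : I → ℤ) : ev (c + d) f = ev c f + ev d f := by
  simp only [ev_apply]
  rw [Finsupp.sum_add_index']
  · intro i; ring
  · intro i a b; ring

theorem ev_single {I : Type} (i : I) (v : ℤ) (f : I → ℤ) :
    ev (Finsupp.single i v) f = v * f i := by
  rw [ev_apply, Finsupp.sum_single_index (by ring)]

theorem ev_neg {I : Type} (c : I →₀ ℤ) (f : I → ℤ) : ev (-c) f = -ev c f := by
  simp only [ev_apply]
  rw [Finsupp.sum_neg_index (by intro i; ring), Finsupp.sum, Finsupp.sum,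
    ← Finset.sum_neg_distrib]
  refine Finset.sum_congr rfl fun i _ => by ring

variable {I : Type} {𝒜 : Set (Set I)}

/-- The algebra separates points. -/
def Separates (𝒜 : Set (Set I)) : Prop := ∀ i j : I, i ≠ j → ∃ A ∈ 𝒜, i ∈ A ∧ j ∉ A

theorem exists_avoid (h𝒜 : IsSetAlgebra 𝒜) (hsep : Separates 𝒜) (i : I) (F : Finset I)
    (hi : i ∉ F) : ∃ A ∈ 𝒜, i ∈ A ∧ ∀ j ∈ F, j ∉ A := by
  classical
  induction F using Finset.induction_on with
  | empty => exact ⟨univ, h𝒜.univ_mem, mem_univ _, by simp⟩
  | insert k F hk ih =>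
    rw [Finset.mem_insert, not_or] at hi
    obtain ⟨A, hA, hiA, hFA⟩ := ih hi.2
    obtain ⟨B, hB, hiB, hkB⟩ := hsep i k hi.1
    refine ⟨A ∩ B, h𝒜.inter_mem hA hB, ⟨hiA, hiB⟩, fun j hj => ?_⟩
    rcases Finset.mem_insert.1 hj with rfl | hj
    · exact fun h => hkB h.2
    · exact fun h => hFA j hj h.1

/-- A finitely additive `μ` which vanishes on the sets avoiding a finite set `F` is a finite
combination of point masses. -/
theorem exists_finsupp (h𝒜 : IsSetAlgebra 𝒜) (hsep : Separates 𝒜) (F : Finset I) :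
    ∀ μ : Set I → ℤ, (∀ A ∈ 𝒜, ∀ B ∈ 𝒜, Disjoint A B → μ (A ∪ B) = μ A + μ B) →
      (∀ A ∈ 𝒜, (∀ i ∈ F, i ∉ A) → μ A = 0) → ∃ c : I →₀ ℤ, ∀ A ∈ 𝒜, μ A = ev c (ind A) := by
  classical
  induction F using Finset.induction_on with
  | empty =>
    intro μ _ h
    refine ⟨0, fun A hA => ?_⟩
    rw [h A hA (by simp)]
    simp [ev_apply]
  | insert k F hk ih =>
    intro μ hadd h
    obtain ⟨K, hK, hkK, hFK⟩ := exists_avoid h𝒜 hsep k F hk
    have hind : ∀ A B : Set I, Disjoint A B → ind (A ∪ B) k = ind A k + ind B k := by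
      intro A B hAB
      rw [ind_union hAB]; rfl
    obtain ⟨c, hc⟩ := ih (fun A => μ A - μ K * ind A k) (by
      intro A hA B hB hAB
      rw [hadd A hA B hB hAB, hind A B hAB]
      ring) (by
      intro A hA hFA
      by_cases hkA : k ∈ A
      · rw [ind_of_mem hkA, mul_one]
        have h1 : μ A = μ (A ∩ K) + μ (A \ K) := by
          rw [← hadd _ (h𝒜.inter_mem hA hK) _ (h𝒜.sdiff_mem hA hK)
            (Set.disjoint_left.2 fun x hx hx' => hx'.2 hx.2), Set.inter_union_diff]
        have h2 : μ (A \ K) = 0 := by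
          refine h _ (h𝒜.sdiff_mem hA hK) fun i hi => ?_
          rcases Finset.mem_insert.1 hi with rfl | hi
          · exact fun h3 => h3.2 hkK
          · exact fun h3 => hFA i hi h3.1
        have h3 : μ K = μ (K ∩ A) + μ (K \ A) := by
          rw [← hadd _ (h𝒜.inter_mem hK hA) _ (h𝒜.sdiff_mem hK hA)
            (Set.disjoint_left.2 fun x hx hx' => hx'.2 hx.2), Set.inter_union_diff]
        have h4 : μ (K \ A) = 0 := by
          refine h _ (h𝒜.sdiff_mem hK hA) fun i hi => ?_
          rcases Finset.mem_insert.1 hi with rfl | hi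
          · exact fun h3 => h3.2 hkA
          · exact fun h3 => hFK i hi h3.1
        rw [h1, h2, h3, h4, Set.inter_comm K A]
        ring
      · rw [ind_of_notMem hkA, mul_zero, sub_zero]
        refine h A hA fun i hi => ?_
        rcases Finset.mem_insert.1 hi with rfl | hi
        · exact hkA
        · exact hFA i hi)
    refine ⟨c + Finsupp.single k (μ K), fun A hA => ?_⟩
    have := hc A hA
    rw [ev_add, ev_single, ← this]
    ring

/-- The row is determined by its values on the algebra. -/
theorem finsupp_unique (h𝒜 : IsSetAlgebra 𝒜) (hsep : Separates 𝒜) (c d : I →₀ ℤ)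
    (h : ∀ A ∈ 𝒜, ev c (ind A) = ev d (ind A)) : c = d := by
  classical
  have h0 : ∀ A ∈ 𝒜, ev (c + -d) (ind A) = 0 := by
    intro A hA
    rw [ev_add, ev_neg, h A hA]
    ring
  have h1 : c + -d = 0 := by
    ext i
    by_contra hi
    obtain ⟨A, hA, hiA, hFA⟩ := exists_avoid h𝒜 hsep i ((c + -d).support.erase i) (by simp)
    have h2 := h0 A hA
    rw [ev_apply, Finsupp.sum, Finset.sum_eq_single i] at h2
    · rw [ind_of_mem hiA, mul_one] at h2
      exact hi h2
    · intro j hj hji
      rw [ind_of_notMem (hFA j (Finset.mem_erase.2 ⟨hji, hj⟩)), mul_zero]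
    · intro h3
      rw [Finsupp.notMem_support_iff.1 h3, zero_mul]
  have : c = d := by
    have h5 := congrArg (· + d) h1
    simpa using h5
  exact this

end Pool.Agent.H733.GB
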