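import Mathlib
import Pool.Agent.H733.GB.Alg

set_option autoImplicit false

/-!
# Under `MA_{ℵ₁}(σ-centered)` every homomorphism from `ℤ ^ I` to the quotient lifts
-/

namespace Pool.Agent.H733.GB

open Set Cardinal MeasureTheory
open scoped Nat

/-- For a countable algebra which separates points almost all rows are finitely supported. -/
theorem rows (MA : MASigmaCentered) {I : Type} (hI : #I ≤ ℵ₁) (T : (I → ℤ) →+ Q I)
    (L : (I → ℤ) → (I → ℤ)) (hL : ∀ f, (QuotientAddGroup.mk (L f) : Q I) = T f)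
    {𝒜 : Set (Set I)} (h𝒜 : IsSetAlgebra 𝒜) (hsep : Separates 𝒜) (hcount : 𝒜.Countable) :
    {a : I | ¬ ∃ c : I →₀ ℤ, ∀ A ∈ 𝒜, L (ind A) a = ev c (ind A)}.Countable := by
  classical
  by_contra hbad
  -- the exceptional sets
  have hE1 : {a : I | ∃ A ∈ 𝒜, ∃ B ∈ 𝒜, Disjoint A B ∧
      L (ind (A ∪ B)) a ≠ L (ind A) a + L (ind B) a}.Countable := by
    have h1 : ∀ A B : Set I, Disjoint A B →
        {a : I | L (ind (A ∪ B)) a ≠ L (ind A) a + L (ind B) a}.Countable := by
      intro A B hAB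
      have h2 : (QuotientAddGroup.mk (L (ind (A ∪ B))) : Q I)
          = QuotientAddGroup.mk (L (ind A) + L (ind B)) := by
        rw [hL, ind_union hAB, map_add, ← hL, ← hL]
        rfl
      exact (mk_eq_iff _ _).1 h2
    have h3 : {a : I | ∃ A ∈ 𝒜, ∃ B ∈ 𝒜, Disjoint A B ∧
        L (ind (A ∪ B)) a ≠ L (ind A) a + L (ind B) a} ⊆
        ⋃ A ∈ 𝒜, ⋃ B ∈ 𝒜, {a : I | Disjoint A B ∧
          L (ind (A ∪ B)) a ≠ L (ind A) a + L (ind B) a} := by
      rintro a ⟨A, hA, B, hB, h⟩
      simp only [mem_iUnion]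
      exact ⟨A, hA, B, hB, h⟩
    refine (hcount.biUnion fun A _ => hcount.biUnion fun B _ => ?_).mono h3
    by_cases hAB : Disjoint A B
    · exact (h1 A B hAB).mono fun a ha => ha.2
    · have : {a : I | Disjoint A B ∧ L (ind (A ∪ B)) a ≠ L (ind A) a + L (ind B) a} = ∅ := by
        ext a
        simp [hAB]
      rw [this]
      exact countable_empty
  have hE2 : {a : I | L (ind ∅) a ≠ 0}.Countable := by
    have h1 : (QuotientAddGroup.mk (L (ind (∅ : Set I))) : Q I)
        = QuotientAddGroup.mk (0 : I → ℤ) := by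
      rw [hL]
      have : ind (∅ : Set I) = 0 := by
        ext i
        exact ind_of_notMem (Set.notMem_empty i)
      rw [this, map_zero]
      rfl
    exact (mk_eq_iff _ _).1 h1
  set Bad : Set I := {a : I | ¬ ∃ c : I →₀ ℤ, ∀ A ∈ 𝒜, L (ind A) a = ev c (ind A)} with hBad
  set E1 : Set I := {a : I | ∃ A ∈ 𝒜, ∃ B ∈ 𝒜, Disjoint A B ∧
      L (ind (A ∪ B)) a ≠ L (ind A) a + L (ind B) a} with hE1def
  set E2 : Set I := {a : I | L (ind ∅) a ≠ 0} with hE2def
  let Z : Set I := Bad \ (E1 ∪ E2)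
  have : Countable 𝒜 := hcount.to_subtype
  have hζ : #Z ≤ ℵ₁ := (mk_subtype_le _).trans hI
  obtain ⟨b, hfin, hb⟩ := exists_seq MA (B := 𝒜) (ζ := Z) hI hζ (fun A => (A : Set I))
    (fun a A => L (ind (A : Set I)) a) ⟨∅, h𝒜.empty_mem⟩ rfl (by
      rintro ⟨a, ha, ha'⟩
      show L (ind ∅) a = 0
      by_contra h
      exact ha' (Or.inr h)) (by
      rintro ⟨a, ha, ha'⟩ F
      by_contra hcon
      push Not at hcon
      refine ha (exists_finsupp h𝒜 hsep F (fun A => L (ind A) a) ?_ ?_)
      · intro A hA B hB hAB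
        by_contra h
        exact ha' (Or.inl ⟨A, hA, B, hB, hAB, h⟩)
      · intro A hA hFA
        exact hcon ⟨A, hA⟩ hFA)
  -- the function `f = ∑ n! 1_{b n}`
  let f : I → ℤ := fun i => ∑ n ∈ (hfin i).toFinset, (n ! : ℤ)
  let g : ℕ → I → ℤ := fun N i => ∑ n ∈ (hfin i).toFinset with N ≤ n, ((n ! / N ! : ℕ) : ℤ)
  have hf : ∀ N, f = (∑ j ∈ Finset.range N, (j ! : ℤ) • ind (b j : Set I)) +
      (N ! : ℤ) • g N := by
    intro N
    ext i
    simp only [f, g, Pi.add_apply, Finset.sum_apply, Pi.smul_apply, smul_eq_mul]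
    rw [← Finset.sum_filter_add_sum_filter_not (hfin i).toFinset (fun n => n < N)]
    congr 1
    · have h1 : ∀ j, (j ! : ℤ) * ind (b j : Set I) i
          = if j ∈ (hfin i).toFinset then (j ! : ℤ) else 0 := by
        intro j
        by_cases hj : i ∈ (b j : Set I)
        · rw [ind_of_mem hj, if_pos (by simpa using hj), mul_one]
        · rw [ind_of_notMem hj, if_neg (by simpa using hj), mul_zero]
      simp_rw [h1]
      rw [← Finset.sum_filter]
      refine Finset.sum_congr ?_ fun _ _ => rfl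
      ext j
      simp only [Finset.mem_filter, Finset.mem_range]
      tauto
    · rw [Finset.mul_sum]
      refine Finset.sum_congr ?_ fun n hn => ?_
      · ext j
        simp only [Finset.mem_filter, not_lt]
      · rw [Finset.mem_filter] at hn
        have h2 : N ! ∣ n ! := Nat.factorial_dvd_factorial (by
          rcases hn with ⟨_, h⟩
          omega)
        rw [← Nat.cast_mul, Nat.mul_div_cancel' h2]
  have hE : ∀ N, {a | L f a ≠ ((∑ j ∈ Finset.range N, (j ! : ℤ) • L (ind (b j : Set I))) +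
      (N ! : ℤ) • L (g N)) a}.Countable := by
    intro N
    rw [← mk_eq_iff, hL]
    conv_lhs => rw [hf N]
    rw [map_add, map_sum, map_zsmul]
    simp_rw [map_zsmul, ← hL]
    rw [← QuotientAddGroup.mk'_apply, ← QuotientAddGroup.mk'_apply, map_add, map_sum, map_zsmul]
    simp_rw [map_zsmul]
    rfl
  have hU := (Set.countable_iUnion hE).union (hE1.union hE2)
  have hne : ∃ a ∈ Bad, a ∉ (⋃ N, {a | L f a ≠ ((∑ j ∈ Finset.range N,
      (j ! : ℤ) • L (ind (b j : Set I))) + (N ! : ℤ) • L (g N)) a}) ∪ (E1 ∪ E2) := by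
    by_contra hcon
    push Not at hcon
    exact hbad (hU.mono hcon)
  obtain ⟨a, haB, haU⟩ := hne
  have haZ : a ∈ Z := ⟨haB, fun h => haU (Or.inr h)⟩
  obtain ⟨N, hN⟩ := hb ⟨a, haZ⟩ (L f a)
  refine hN ?_
  have h1 : L f a = ((∑ j ∈ Finset.range N, (j ! : ℤ) • L (ind (b j : Set I))) +
      (N ! : ℤ) • L (g N)) a := by
    by_contra h2
    exact haU (Or.inl (mem_iUnion.2 ⟨N, h2⟩))
  rw [h1]
  simp only [Pi.add_apply, Finset.sum_apply, Pi.smul_apply, smul_eq_mul, psum]
  exact ⟨L (g N) a, by ring⟩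

/-- Under Martin's axiom for `σ`-centered posets every homomorphism from `ℤ ^ I` to the quotient
modulo the functions with countable support is given by a row-finite matrix. -/
theorem lift (MA : MASigmaCentered) {I : Type} (hI : #I ≤ ℵ₁) (T : (I → ℤ) →+ Q I) :
    ∃ c : I → (I →₀ ℤ), ∀ f : I → ℤ, T f = QuotientAddGroup.mk (fun a => ev (c a) f) := by
  classical
  have hL : ∀ f, ∃ g : I → ℤ, (QuotientAddGroup.mk g : Q I) = T f := fun f =>
    QuotientAddGroup.mk_surjective (T f)
  choose L hL using hL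
  -- an injection into the Cantor set
  have hinj : #I ≤ #(ℕ → Bool) := by
    refine hI.trans ?_
    rw [← power_def, mk_bool, mk_nat]
    rw [two_power_aleph0]
    exact aleph_one_le_continuum
  obtain ⟨r⟩ := Cardinal.le_def _ _ |>.1 hinj
  let base : Set (Set I) := range fun n : ℕ => {i : I | r i n = true}
  have hbase : base.Countable := countable_range _
  have hsep0 : ∀ 𝒞 : Set (Set I), IsSetAlgebra 𝒞 → base ⊆ 𝒞 → Separates 𝒞 := by
    intro 𝒞 h𝒞 hsub i j hij
    have h1 : r i ≠ r j := fun h => hij (r.injective h)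
    obtain ⟨n, hn⟩ := Function.ne_iff.1 h1
    have hmem : {i : I | r i n = true} ∈ 𝒞 := hsub ⟨n, rfl⟩
    cases hi : r i n with
    | true =>
      refine ⟨_, hmem, hi, fun h => hn ?_⟩
      rw [hi]
      exact (show r j n = true from h).symm
    | false =>
      refine ⟨_, h𝒞.compl_mem hmem, fun h => ?_, fun h => h ?_⟩
      · rw [mem_setOf_eq, hi] at h
        exact Bool.false_ne_true h
      · show r j n = true
        rw [hi] at hn
        cases hj : r j n with
        | true => rfl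
        | false => exact absurd hj.symm (fun h2 => hn h2)
  let 𝒜 : Set (Set I) := generateSetAlgebra base
  have h𝒜 : IsSetAlgebra 𝒜 := isSetAlgebra_generateSetAlgebra
  have hsep : Separates 𝒜 := hsep0 𝒜 h𝒜 self_subset_generateSetAlgebra
  have hcount : 𝒜.Countable := countable_generateSetAlgebra hbase
  have hrows := rows MA hI T L hL h𝒜 hsep hcount
  let c : I → (I →₀ ℤ) := fun a =>
    if h : ∃ c : I →₀ ℤ, ∀ A ∈ 𝒜, L (ind A) a = ev c (ind A) then h.choose else 0
  have hc : ∀ a, (∃ c : I →₀ ℤ, ∀ A ∈ 𝒜, L (ind A) a = ev c (ind A)) →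
      ∀ A ∈ 𝒜, L (ind A) a = ev (c a) (ind A) := by
    intro a ha
    simp only [c, dif_pos ha]
    exact ha.choose_spec
  refine ⟨c, fun f => ?_⟩
  -- the algebra for `f`
  let base' : Set (Set I) := base ∪ range fun k : ℤ => {i : I | f i = k}
  have hbase' : base'.Countable := hbase.union (countable_range _)
  let 𝒜' : Set (Set I) := generateSetAlgebra base'
  have h𝒜' : IsSetAlgebra 𝒜' := isSetAlgebra_generateSetAlgebra
  have hsub : 𝒜 ⊆ 𝒜' := generateSetAlgebra_mono subset_union_left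
  have hsep' : Separates 𝒜' := hsep0 𝒜' h𝒜' fun A hA => hsub (self_subset_generateSetAlgebra hA)
  have hcount' : 𝒜'.Countable := countable_generateSetAlgebra hbase'
  have hrows' := rows MA hI T L hL h𝒜' hsep' hcount'
  -- outside of a countable set the row `c a` is right on the larger algebra
  have hgood : {a : I | ¬ ∀ A ∈ 𝒜', L (ind A) a = ev (c a) (ind A)}.Countable := by
    refine (hrows.union hrows').mono fun a ha => ?_
    by_contra hcon
    rw [mem_union, not_or] at hcon
    obtain ⟨h1, h2⟩ := hcon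
    rw [mem_setOf_eq, not_not] at h1 h2
    obtain ⟨d, hd⟩ := h2
    have h3 := hc a h1
    have h4 : c a = d := finsupp_unique h𝒜 hsep _ _ fun A hA => by
      rw [← h3 A hA, hd A (hsub hA)]
    exact ha fun A hA => by rw [h4]; exact hd A hA
  -- the homomorphism `ℤ ^ ℤ → Q`
  let M : (I → ℤ) →+ (I → ℤ) := AddMonoidHom.pi fun a => ev (c a)
  let comp : (ℤ → ℤ) →+ (I → ℤ) :=
    { toFun := fun a i => a (f i)
      map_zero' := rfl
      map_add' := fun _ _ => rfl }
  let ψ : (ℤ → ℤ) →+ Q I :=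
    T.comp comp - ((QuotientAddGroup.mk' (CS I)).comp M).comp comp
  have hψ : ∀ k : ℤ, ψ (Pi.single k 1) = 0 := by
    intro k
    have h1 : comp (Pi.single k 1) = ind {i : I | f i = k} := by
      ext i
      show (Pi.single k (1 : ℤ) : ℤ → ℤ) (f i) = _
      by_cases hi : f i = k
      · rw [ind_of_mem (show i ∈ {i : I | f i = k} from hi), hi, Pi.single_eq_same]
      · rw [ind_of_notMem (show i ∉ {i : I | f i = k} from hi), Pi.single_eq_of_ne hi]
    show T (comp (Pi.single k 1)) - QuotientAddGroup.mk (M (comp (Pi.single k 1))) = 0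
    rw [h1, sub_eq_zero, ← hL, mk_eq_iff]
    refine hgood.mono fun a ha => ?_
    intro h2
    exact ha (h2 _ (self_subset_generateSetAlgebra (Or.inr ⟨k, rfl⟩)))
  have h1 := hom_eq_zero ψ hψ id
  have h2 : T (comp id) - QuotientAddGroup.mk (M (comp id)) = 0 := h1
  have h3 : comp id = f := rfl
  rw [h3, sub_eq_zero] at h2
  exact h2

end Pool.Agent.H733.GB
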